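import Pool.Agent.Helper59.SL.GoalsG
import Pool.Agent.Helper51.SixExp.Family

/-!
# Project SL: LUN and NONV
-/

set_option autoImplicit false

namespace Pool.Agent.Helper8.SLG.LUNNONV

open Pool.Agent.Helper51.SigLeo Pool.Agent.Helper51.SixExp Pool.Agent.Helper17.SL
  Pool.Agent.Helper59.SL NumberField Module TensorProduct

universe u v w x y z

theorem thm_LUN : S_LUN.{u, v} := by
  intro p _ k _ _ _ H _ _ τ L L'
  refine AddMonoidHom.ext fun m => ?_
  have hx : IsUnitAlg (Units.map (algebraMap (𝓞 H) H : 𝓞 H →* H) m.toMul) := by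
    refine ⟨?_, ?_⟩
    · exact RingOfIntegers.isIntegral_coe _
    · rw [← map_inv]
      exact RingOfIntegers.isIntegral_coe _
  have h := log_unique p τ L L' (Units.map (algebraMap (𝓞 H) H : 𝓞 H →* H) m.toMul) hx
  exact h

theorem thm_NONV (hA : S_ARCHB.{u, v}) (hB : S_BC.{w, 0, v, 0}) : S_NONV.{u, v, w} := by
  intro F H _ _ _ _ _ _ _ E _ _ ε θ m v he hm hθ φ
  constructor
  · intro hφ h0
    apply hm
    have h1 : cc ε m = 0 := by
      refine hA F H (fun γ => ε (θ γ)) (cc ε m) (he.cc ε) φ ?_ h0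
      intro φ' γ h2 h3 h4
      rw [hφ] at h2
      exact hθ φ' γ h2 h3 (ε.injective (by rw [h4, map_one]))
    by_contra hne
    have h2 : LinearIndependent E (fun _ : Unit => m) := by
      rw [linearIndependent_unique_iff]
      exact hne
    have h3 := hB E ℂ ε (Additive (𝓞 H)ˣ) Unit (fun _ => m) h2
    rw [linearIndependent_unique_iff] at h3
    exact h3 h1
  · intro h0
    by_contra hφ
    apply h0
    obtain ⟨γ, hγ⟩ := exists_gal_comp (K := F) φ (ComplexEmbedding.conjugate φ)
      (by rw [ComplexEmbedding.conjugate_comp, conjugate_real])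
    have h1 := hθ φ γ hφ hγ
    have h2 : extHom (logC φ) (cc ε m) = ε (θ γ) * extHom (logC φ) (cc ε m) := by
      conv_lhs => rw [← logC_conjugate, hγ, extHom_logC_gal, he.cc ε γ, map_smul, smul_eq_mul]
    have h3 : (1 - ε (θ γ)) * extHom (logC φ) (cc ε m) = 0 := by
      rw [sub_mul, one_mul, ← h2, sub_self]
    rcases mul_eq_zero.mp h3 with h4 | h4
    · exfalso
      apply h1
      apply ε.injective
      rw [map_one]
      exact (sub_eq_zero.mp h4).symm
    · exact h4

end Pool.Agent.Helper8.SLG.LUNNONV
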